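import Mathlib
import Pool.Agent.Lib.MP_1f4710_co.Defs
import Pool.Agent.Lib.MP_1f4710_co.GO.Upper
import Pool.Agent.Results.MP_1f4710_co.LowerBound

/-!
The order of growth of the maximal number of modes in the dimension, with a factor that depends
only on the number of components.
-/

namespace Pool.Agent.Lib.MP_1f4710_co.GO

open Pool.Agent.Lib.MP_1f4710_co Filter Asymptotics Topology Matrix

theorem one_le_maxModes (d k : ℕ) (hk : 1 ≤ k) : 1 ≤ maxModes d k := by
  have hk0 : (0 : ℝ) < k := by exact_mod_cast hk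
  refine le_iSup_of_le (fun _ => 1 / (k : ℝ)) (le_iSup_of_le (fun _ => 0)
    (le_iSup_of_le (fun _ => 1) (le_iSup_of_le
      ⟨fun _ => by positivity, by simp; field_simp, fun _ => Matrix.PosDef.one⟩ ?_)))
  refine Set.one_le_encard_iff_nonempty.2 ⟨0, ?_⟩
  refine eventually_nhdsWithin_of_forall fun y hy => ?_
  refine Finset.sum_lt_sum_of_nonempty ⟨⟨0, hk⟩, Finset.mem_univ _⟩ fun i _ => ?_
  refine mul_lt_mul_of_pos_left ?_ (by positivity)
  unfold gaussian
  refine mul_lt_mul_of_pos_left (Real.exp_lt_exp.2 ?_) (by simp; positivity)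
  have h : 0 < y ⬝ᵥ y := by
    have h1 : 0 ≤ y ⬝ᵥ y := Finset.sum_nonneg fun j _ => mul_self_nonneg _
    exact lt_of_le_of_ne h1 fun h => hy (dotProduct_self_eq_zero.1 h.symm)
  simp
  linarith

theorem factorial_le_aux (l : ℕ) : l.factorial ≤ 2 ^ l.choose 2 * (5 * l + 1) ^ l :=
  calc l.factorial ≤ l ^ l := Nat.factorial_le_pow l
    _ ≤ (5 * l + 1) ^ l := Nat.pow_le_pow_left (by omega) l
    _ ≤ 2 ^ l.choose 2 * (5 * l + 1) ^ l := Nat.le_mul_of_pos_left _ (by positivity)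

theorem two_sided (d l : ℕ) (hd : 1 ≤ d) :
    ∃ m : ℕ, 0 < m ∧ maxModes d (l + 1) = m ∧ d ^ l ≤ l.factorial * m ∧
      m ≤ 2 ^ l.choose 2 * (5 * l + 1) ^ l * d ^ l := by
  have hup := Upper.result d (l + 1) hd (by omega)
  obtain ⟨m, hm⟩ := ENat.ne_top_iff_exists.1 (ne_top_of_le_ne_top (ENat.natCast_ne_top _) hup)
  have hpos : 0 < m := by
    have h := one_le_maxModes d (l + 1) (by omega)
    rw [← hm] at h
    exact_mod_cast h
  refine ⟨m, hpos, hm.symm, ?_, ?_⟩
  · rcases Nat.lt_or_ge d 2 with h2 | h2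
    · obtain rfl : d = 1 := by omega
      rw [one_pow]
      exact Nat.mul_pos (Nat.factorial_pos l) hpos
    · have h0 := Pool.Agent.Results.MP_1f4710_co.LowerBound.result d (l + 1) h2 (by omega)
      rw [← hm, Nat.cast_le, show d + (l + 1) - 1 = d + l by omega, Nat.choose_symm_add] at h0
      have h3 : ((d + l + 1 - l : ℕ) ^ l : ℝ) / l.factorial ≤ (d + l).choose l :=
        Nat.pow_le_choose l (d + l)
      rw [show d + l + 1 - l = d + 1 by omega, div_le_iff₀ (by positivity)] at h3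
      have h4 : (d + 1) ^ l ≤ (d + l).choose l * l.factorial := by exact_mod_cast h3
      calc d ^ l ≤ (d + 1) ^ l := Nat.pow_le_pow_left (by omega) l
        _ ≤ (d + l).choose l * l.factorial := h4
        _ ≤ m * l.factorial := Nat.mul_le_mul_right _ (by omega)
        _ = l.factorial * m := mul_comm _ _
  · rw [← hm, Nat.cast_le, Nat.add_sub_cancel] at hup
    refine hup.trans ?_
    rw [mul_assoc (2 ^ l.choose 2), ← mul_pow]
    refine Nat.mul_le_mul_left _ (Nat.pow_le_pow_left ?_ l)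
    have h5 : 3 * l * d + 2 * (l + 1) - 1 = 3 * l * d + (2 * l + 1) := by omega
    rw [h5]
    nlinarith

theorem main (d k : ℕ) (hd : 1 ≤ d) (hk : 1 ≤ k) :
    ∃ m : ℕ, 0 < m ∧ maxModes d k = m ∧
      |Real.log ((m : ℝ) / (d : ℝ) ^ (k - 1))| ≤
        Real.log (2 ^ (k - 1).choose 2 * (5 * (k : ℝ) - 4) ^ (k - 1)) := by
  obtain ⟨l, rfl⟩ : ∃ l, k = l + 1 := ⟨k - 1, by omega⟩
  obtain ⟨m, hm, h1, h2, h3⟩ := two_sided d l hd
  refine ⟨m, hm, h1, ?_⟩
  rw [Nat.add_sub_cancel, show 5 * ((l + 1 : ℕ) : ℝ) - 4 = 5 * l + 1 by push_cast; ring]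
  have hd0 : (0 : ℝ) < (d : ℝ) ^ l := by positivity
  have hm0 : (0 : ℝ) < m := by exact_mod_cast hm
  have h4 : (d : ℝ) ^ l ≤ 2 ^ l.choose 2 * (5 * (l : ℝ) + 1) ^ l * m := by
    have := h2.trans (Nat.mul_le_mul_right m (factorial_le_aux l))
    exact_mod_cast this
  have h5 : (m : ℝ) ≤ 2 ^ l.choose 2 * (5 * (l : ℝ) + 1) ^ l * (d : ℝ) ^ l := by
    exact_mod_cast h3
  rw [abs_le]
  constructor
  · rw [← Real.log_inv]
    refine Real.log_le_log (by positivity) ?_
    rw [inv_le_comm₀ (by positivity) (by positivity), inv_div, div_le_iff₀ hm0]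
    exact h4
  · refine Real.log_le_log (by positivity) ?_
    rw [div_le_iff₀ hd0]
    exact h5

end Pool.Agent.Lib.MP_1f4710_co.GO
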