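import Mathlib
import Pool.Agent.Lib.MP_1f4710_co.Defs
import Pool.Agent.Lib.MP_1f4710_co.GO.Main

namespace Pool.Agent.Lib.MP_1f4710_co.GO.Growth

open Pool.Agent.Lib.MP_1f4710_co

/-- For `d, k ≥ 1` the maximal number of modes of a mixture of `k` normal densities in dimension
`d` is a positive integer which agrees with `d ^ (k - 1)` up to the factor
`2 ^ binom (k - 1) 2 * (5 k - 4) ^ (k - 1)`, which does not depend on `d`. -/
theorem result (d k : ℕ) (hd : 1 ≤ d) (hk : 1 ≤ k) :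
    ∃ m : ℕ, 0 < m ∧ maxModes d k = m ∧
      |Real.log ((m : ℝ) / (d : ℝ) ^ (k - 1))| ≤
        Real.log (2 ^ (k - 1).choose 2 * (5 * (k : ℝ) - 4) ^ (k - 1)) :=
  GO.main d k hd hk

end Pool.Agent.Lib.MP_1f4710_co.GO.Growth
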