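import Mathlib
import Pool.Agent.Lib.MP_1f4710_co.GO.Growth

/-!
The Landau form of the hand-in `GrowthOrder`, derived from its statement alone.
-/

namespace Pool.Agent.Lib.MP_1f4710_co.GO

open Pool.Agent.Lib.MP_1f4710_co Filter Asymptotics

theorem isTheta_of_result (k : ℕ) (hk : 1 ≤ k) :
    ∃ m : ℕ → ℕ, (∀ d, 1 ≤ d → maxModes d k = m d) ∧
      (fun d : ℕ => (m d : ℝ)) =Θ[atTop] fun d : ℕ => (d : ℝ) ^ (k - 1) := by
  choose! m h0 h1 h2 using fun d hd =>
    Pool.Agent.Lib.MP_1f4710_co.GO.Growth.result d k hd hk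
  have hk1 : (1 : ℝ) ≤ k := by exact_mod_cast hk
  have hE : (0 : ℝ) < 2 ^ (k - 1).choose 2 * (5 * (k : ℝ) - 4) ^ (k - 1) :=
    mul_pos (by positivity) (pow_pos (by linarith) _)
  refine ⟨m, h1, ?_, ?_⟩
  · refine IsBigO.of_bound (2 ^ (k - 1).choose 2 * (5 * (k : ℝ) - 4) ^ (k - 1)) ?_
    filter_upwards [eventually_ge_atTop 1] with d hd
    have hd0 : (0 : ℝ) < (d : ℝ) ^ (k - 1) := by positivity
    have hm0 : (0 : ℝ) < m d := by exact_mod_cast h0 d hd
    have h := (abs_le.1 (h2 d hd)).2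
    rw [Real.log_le_log_iff (by positivity) hE, div_le_iff₀ hd0] at h
    rwa [Real.norm_of_nonneg hm0.le, Real.norm_of_nonneg hd0.le]
  · refine IsBigO.of_bound (2 ^ (k - 1).choose 2 * (5 * (k : ℝ) - 4) ^ (k - 1)) ?_
    filter_upwards [eventually_ge_atTop 1] with d hd
    have hd0 : (0 : ℝ) < (d : ℝ) ^ (k - 1) := by positivity
    have hm0 : (0 : ℝ) < m d := by exact_mod_cast h0 d hd
    have h := (abs_le.1 (h2 d hd)).1
    rw [← Real.log_inv, Real.log_le_log_iff (by positivity) (by positivity),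
      inv_le_comm₀ hE (by positivity), inv_div, div_le_iff₀ hm0] at h
    rwa [Real.norm_of_nonneg hm0.le, Real.norm_of_nonneg hd0.le]

end Pool.Agent.Lib.MP_1f4710_co.GO
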